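import Pool.Agent.H83.LS.Targets4
import Pool.Agent.H27.LS.Chi
import Pool.Agent.H85.LS.ROT

set_option autoImplicit false

namespace Pool.Agent.H85.LS

open MeasureTheory Set FourierTransform Pool.Agent.H83.LS LineDeriv
open scoped ENNReal NNReal SchwartzMap ContDiff

theorem AN_mul {n : ℕ} {W φ : EE n → ℂ} (hW : AN W) (hφ : ∀ y, y ≠ 0 → ContDiffAt ℝ ∞ φ y) :
    AN (fun y => W y * φ y) := by
  refine ⟨?_, fun y hy => hW.2 y (left_ne_zero_of_mul hy)⟩
  rw [contDiff_iff_contDiffAt]
  intro y
  by_cases hy : y = 0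
  · have h1 : (fun y => W y * φ y) =ᶠ[nhds y] fun _ => 0 := by
      have h2 : ∀ᶠ z in nhds y, ‖z‖ < 1 / 8 := by
        rw [hy]
        have := continuous_norm.tendsto (0 : EE n)
        rw [norm_zero] at this
        exact this.eventually (gt_mem_nhds (by norm_num))
      filter_upwards [h2] with z hz
      by_contra hne
      have := (hW.2 z (left_ne_zero_of_mul hne)).1
      linarith
    exact contDiffAt_const.congr_of_eventuallyEq h1
  · exact hW.1.contDiffAt.mul (hφ y hy)

theorem AN_hcs {n : ℕ} {W : EE n → ℂ} (hW : AN W) : HasCompactSupport W := by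
  refine HasCompactSupport.intro (isCompact_closedBall (0 : EE n) 8) fun y hy => ?_
  by_contra h
  exact hy (by rw [mem_closedBall_zero_iff]; exact (hW.2 y h).2)

theorem AN_sum {n : ℕ} {ι : Type*} (s : Finset ι) {W : ι → EE n → ℂ} (hW : ∀ k ∈ s, AN (W k)) :
    AN (fun y => ∑ k ∈ s, W k y) := by
  refine ⟨ContDiff.sum fun k hk => (hW k hk).1, fun y hy => ?_⟩
  obtain ⟨k, hk, hk'⟩ := Finset.exists_ne_zero_of_sum_ne_zero hy
  exact (hW k hk).2 y hk'

theorem AN_zero {n : ℕ} : AN (fun _ : EE n => (0 : ℂ)) :=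
  ⟨contDiff_const, fun _ h => absurd rfl h⟩

theorem AN_deriv {n : ℕ} {W : EE n → ℂ} (hW : AN W) (m : EE n) :
    AN (fun y => fderiv ℝ W y m) := by
  constructor
  · exact (hW.1.fderiv_right (m := ∞) (by simp)).clm_apply contDiff_const
  · intro y hy
    have h1 : y ∈ tsupport W := by
      by_contra hcon
      apply hy
      have h2 : W =ᶠ[nhds y] 0 := notMem_tsupport_iff_eventuallyEq.1 hcon
      change fderiv ℝ W y m = 0
      rw [h2.fderiv_eq]
      simp
    have h3 : tsupport W ⊆ {y : EE n | 1 / 8 ≤ ‖y‖ ∧ ‖y‖ ≤ 8} := by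
      refine closure_minimal (fun z hz => hW.2 z hz) ?_
      exact (isClosed_le continuous_const continuous_norm).inter
        (isClosed_le continuous_norm continuous_const)
    exact h3 h1

theorem AN_integrable_e {n : ℕ} {W : EE n → ℂ} (hW : AN W) (a : EE n) :
    Integrable (fun y => e (-(inner ℝ a y)) * W y) := by
  refine Continuous.integrable_of_hasCompactSupport ?_ ?_
  · exact (continuous_e.comp (continuous_const.inner continuous_id).neg).mul hW.1.continuous
  · exact (AN_hcs hW).mul_left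

theorem fourier_eq_e {n : ℕ} (h : EE n → ℂ) (a : EE n) :
    𝓕 h a = ∫ y, e (-(inner ℝ a y)) * h y := by
  rw [Real.fourier_eq']
  refine integral_congr_ae (Filter.Eventually.of_forall fun y => ?_)
  simp only [smul_eq_mul]
  congr 1
  unfold e
  rw [real_inner_comm]
  congr 1
  push_cast
  ring

theorem AN_ibp {n : ℕ} {h : EE n → ℂ} (hh : AN h) (a : EE n) (i : Fin n) :
    2 * Real.pi * Complex.I * (a i : ℂ) * ∫ y, e (-(inner ℝ a y)) * h y =
      ∫ y, e (-(inner ℝ a y)) * fderiv ℝ h y (EuclideanSpace.single i 1) := by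
  let H : 𝓢(EE n, ℂ) := (AN_hcs hh).toSchwartzMap hh.1
  have hH : (H : EE n → ℂ) = h := rfl
  have h1 := SchwartzMap.fourier_lineDerivOp_eq H (EuclideanSpace.single i (1 : ℝ))
  have h2 := DFunLike.congr_fun h1 a
  have htg : (fun x : EE n => inner ℝ x (EuclideanSpace.single i (1 : ℝ))).HasTemperateGrowth :=
    ((innerSL ℝ).flip (EuclideanSpace.single i (1 : ℝ))).hasTemperateGrowth
  rw [smul_apply, SchwartzMap.smulLeftCLM_apply_apply htg] at h2
  have h3 : (𝓕 (∂_{(EuclideanSpace.single i (1 : ℝ) : EE n)} H) : 𝓢(EE n, ℂ)) a =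
      ∫ y, e (-(inner ℝ a y)) * fderiv ℝ h y (EuclideanSpace.single i 1) := by
    rw [SchwartzMap.fourier_coe, fourier_eq_e]
    refine integral_congr_ae (Filter.Eventually.of_forall fun y => ?_)
    simp only
    rw [SchwartzMap.lineDerivOp_apply_eq_fderiv, hH]
  have h4 : (𝓕 H : 𝓢(EE n, ℂ)) a = ∫ y, e (-(inner ℝ a y)) * h y := by
    rw [SchwartzMap.fourier_coe, fourier_eq_e, hH]
  rw [h3, h4] at h2
  rw [h2]
  have h5 : inner ℝ a (EuclideanSpace.single i (1 : ℝ)) = a i := by
    simp [EuclideanSpace.inner_single_right]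
  simp only [h5, Complex.real_smul, smul_eq_mul]
  ring

/-- linear part of `jo` -/
noncomputable def joL (n : ℕ) : EE n →ₗ[ℝ] EE (n + 1) where
  toFun y := jo y 0
  map_add' x y := by
    ext k
    refine Fin.lastCases ?_ (fun k => ?_) k
    · simp [jo]
    · simp [jo]
  map_smul' c y := by
    ext k
    refine Fin.lastCases ?_ (fun k => ?_) k
    · simp [jo]
    · simp [jo]

theorem jo_eq {n : ℕ} (y : EE n) (η : ℝ) :
    jo y η = (joL n).toContinuousLinearMap y + EuclideanSpace.single (Fin.last n) η := by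
  ext k
  refine Fin.lastCases ?_ (fun k => ?_) k
  · simp [jo, joL]
  · have : ¬ k.castSucc = Fin.last n := (Fin.castSucc_lt_last k).ne
    simp [jo, joL, this]

theorem joL_single {n : ℕ} (k : Fin n) :
    (joL n).toContinuousLinearMap (EuclideanSpace.single k 1) = vv k := by
  ext l
  refine Fin.lastCases ?_ (fun l => ?_) l
  · have : ¬ Fin.last n = k.castSucc := (Fin.castSucc_lt_last k).ne'
    simp [jo, joL, vv, this]
  · simp [jo, joL, vv, Pi.single_apply, Fin.castSucc_inj]

/-- the curve `y ↦ jo (s y/|y|) η` -/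
theorem contDiffAt_jo {n : ℕ} (s η : ℝ) (y : EE n) (hy : y ≠ 0) :
    ContDiffAt ℝ ∞ (fun y : EE n => jo ((s / ‖y‖) • y) η) y := by
  have hn : ‖y‖ ≠ 0 := norm_ne_zero_iff.2 hy
  have h1 : ContDiffAt ℝ ∞ (fun y : EE n => (s / ‖y‖) • y) y :=
    (contDiffAt_const.div (contDiffAt_norm ℝ hy) hn).smul contDiffAt_id
  have h2 : (fun y : EE n => jo ((s / ‖y‖) • y) η) = fun y : EE n =>
      (joL n).toContinuousLinearMap ((s / ‖y‖) • y) + EuclideanSpace.single (Fin.last n) η :=
    funext fun y => jo_eq _ _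
  rw [h2]
  exact ((joL n).toContinuousLinearMap.contDiff.contDiffAt.comp y h1).add contDiffAt_const

theorem fderiv_jo {n : ℕ} (s η : ℝ) (y : EE n) (hy : y ≠ 0) (i : Fin n) :
    fderiv ℝ (fun y : EE n => jo ((s / ‖y‖) • y) η) y (EuclideanSpace.single i 1) =
      (s / ‖y‖) • vv i - (s * y i / ‖y‖ ^ 3) • (joL n).toContinuousLinearMap y := by
  have hn : ‖y‖ ≠ 0 := norm_ne_zero_iff.2 hy
  have h1 : HasFDerivAt (fun y : EE n => ‖y‖) (‖y‖⁻¹ • innerSL ℝ y) y := by
    have h2 := (hasStrictFDerivAt_norm_sq y).hasFDerivAt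
    have h3 := h2.sqrt (by positivity)
    have h4 : (fun y : EE n => Real.sqrt (‖y‖ ^ 2)) = fun y => ‖y‖ := by
      funext y; exact Real.sqrt_sq (norm_nonneg y)
    rw [h4] at h3
    refine h3.congr_fderiv ?_
    rw [Real.sqrt_sq (norm_nonneg y)]
    ext v
    simp only [smul_apply, smul_eq_mul, nsmul_eq_mul]
    field_simp
    norm_num
  have h5 : HasFDerivAt (fun y : EE n => s / ‖y‖) ((-(s / ‖y‖ ^ 2)) • (‖y‖⁻¹ • innerSL ℝ y)) y := by
    have := ((hasDerivAt_inv hn).comp_hasFDerivAt y h1).const_mul s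
    refine (this.congr_fderiv ?_).congr_of_eventuallyEq (Filter.Eventually.of_forall fun z => ?_)
    · ext v
      simp only [smul_apply, smul_eq_mul]
      field_simp
    · simp [div_eq_mul_inv]
  have h6 : HasFDerivAt (fun y : EE n => (s / ‖y‖) • y) _ y := h5.smul (hasFDerivAt_id y)
  have h7 : HasFDerivAt (fun y : EE n => (joL n).toContinuousLinearMap ((s / ‖y‖) • y)) _ y :=
    HasFDerivAt.comp (g := (joL n).toContinuousLinearMap) (f := fun y : EE n => (s / ‖y‖) • y) y
      ((joL n).toContinuousLinearMap.hasFDerivAt (x := (s / ‖y‖) • y)) h6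
  have h8 : HasFDerivAt (fun y : EE n => jo ((s / ‖y‖) • y) η) _ y :=
    (h7.add_const (EuclideanSpace.single (Fin.last n) η)).congr_of_eventuallyEq
      (Filter.Eventually.of_forall fun y => jo_eq _ _)
  rw [h8.fderiv]
  have h9 : inner ℝ y (EuclideanSpace.single i (1 : ℝ)) = y i := by
    simp [EuclideanSpace.inner_single_right]
  simp only [ContinuousLinearMap.comp_apply, add_apply, smul_apply,
    ContinuousLinearMap.smulRight_apply, ContinuousLinearMap.id_apply, map_add, map_smul,
    joL_single, innerSL_apply_apply, h9, id, smul_eq_mul]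
  rw [sub_eq_add_neg, ← neg_smul]
  congr 2
  field_simp

theorem fderiv_HH {n : ℕ} (G : EE (n + 1) → ℂ) (s η : ℝ) (y : EE n) (hy : y ≠ 0) (i : Fin n)
    (hG : Differentiable ℝ G) :
    fderiv ℝ (fun y : EE n => G (jo ((s / ‖y‖) • y) η)) y (EuclideanSpace.single i 1) =
      ∑ j : Fin n, ((y j / ‖y‖ ^ 2 : ℝ) : ℂ) * rot j i G (jo ((s / ‖y‖) • y) η) := by
  have hn : ‖y‖ ≠ 0 := norm_ne_zero_iff.2 hy
  have h1 : fderiv ℝ (fun y : EE n => G (jo ((s / ‖y‖) • y) η)) y =
      (fderiv ℝ G (jo ((s / ‖y‖) • y) η)).comp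
        (fderiv ℝ (fun y : EE n => jo ((s / ‖y‖) • y) η) y) :=
    fderiv_comp y (hG _) ((contDiffAt_jo s η y hy).differentiableAt (by simp))
  rw [h1, ContinuousLinearMap.comp_apply, fderiv_jo s η y hy i]
  set D := fderiv ℝ G (jo ((s / ‖y‖) • y) η) with hD
  have h2 : (joL n).toContinuousLinearMap y = ∑ j : Fin n, (y j) • vv j := by
    have h3 : y = ∑ j : Fin n, (y j) • (EuclideanSpace.single j (1 : ℝ) : EE n) := by
      ext k
      simp [Finset.sum_apply, Pi.single_apply]
    conv_lhs => rw [h3]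
    rw [map_sum]
    refine Finset.sum_congr rfl fun j _ => ?_
    rw [map_smul, joL_single]
  have h4 : ∀ j : Fin n, (jo ((s / ‖y‖) • y) η) j.castSucc = s / ‖y‖ * y j := by
    intro j
    simp [jo]
  have h5 : ∀ j : Fin n, rot j i G (jo ((s / ‖y‖) • y) η) =
      ((s / ‖y‖ * y j : ℝ) : ℂ) * D (vv i) - ((s / ‖y‖ * y i : ℝ) : ℂ) * D (vv j) := by
    intro j
    unfold rot
    rw [h4, h4]
  simp only [h5]
  rw [map_sub, map_smul, map_smul, h2, map_sum]
  have h6 : ((‖y‖ ^ 2 : ℝ) : ℂ) = ∑ j : Fin n, ((y j : ℝ) : ℂ) * (y j : ℝ) := by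
    rw [EuclideanSpace.norm_sq_eq]
    push_cast
    refine Finset.sum_congr rfl fun j _ => ?_
    rw [← Complex.ofReal_pow, Real.norm_eq_abs, sq_abs]
    push_cast
    ring
  have hn' : ((‖y‖ : ℝ) : ℂ) ≠ 0 := by exact_mod_cast hn
  have h7 : ∑ j : Fin n, ((y j / ‖y‖ ^ 2 : ℝ) : ℂ) * (((s / ‖y‖ * y j : ℝ) : ℂ) * D (vv i) -
      ((s / ‖y‖ * y i : ℝ) : ℂ) * D (vv j)) =
      ((s / ‖y‖ ^ 3 : ℝ) : ℂ) * D (vv i) * (∑ j : Fin n, ((y j : ℝ) : ℂ) * (y j : ℝ)) -
      ((s * y i / ‖y‖ ^ 3 : ℝ) : ℂ) * ∑ j : Fin n, ((y j : ℝ) : ℂ) * D (vv j) := by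
    rw [Finset.mul_sum, Finset.mul_sum, ← Finset.sum_sub_distrib]
    refine Finset.sum_congr rfl fun j _ => ?_
    push_cast
    field_simp
  rw [h7, ← h6]
  simp only [map_smul, Complex.real_smul]
  congr 1
  push_cast
  field_simp

theorem AN_chis {n : ℕ} : AN (fun y : EE n => ((chis ‖y‖ : ℝ) : ℂ)) := by
  constructor
  · rw [contDiff_iff_contDiffAt]
    intro y
    by_cases hy : y = 0
    · have h1 : (fun y : EE n => ((chis ‖y‖ : ℝ) : ℂ)) =ᶠ[nhds y] fun _ => 0 := by
        have h2 : ∀ᶠ z in nhds y, ‖z‖ < 1 / 8 := by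
          rw [hy]
          have := continuous_norm.tendsto (0 : EE n)
          rw [norm_zero] at this
          exact this.eventually (gt_mem_nhds (by norm_num))
        filter_upwards [h2] with z hz
        by_contra hne
        have h3 : chis ‖z‖ ≠ 0 := fun h => hne (by rw [h]; simp)
        have := (H27.chis_supp h3).1
        linarith
      exact contDiffAt_const.congr_of_eventuallyEq h1
    · exact (Complex.ofRealCLM.contDiff.contDiffAt.comp y
        (H27.contDiff_chis.contDiffAt.comp y (contDiffAt_norm ℝ hy)))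
  · intro y hy
    have h3 : chis ‖y‖ ≠ 0 := fun h => hy (by simp [h])
    have := H27.chis_supp h3
    constructor <;> linarith

/-- formula with a general index type -/
theorem ang_aux (n N : ℕ) : ∃ (ι : Type) (_ : Fintype ι) (W : ι → List (Fin n × Fin n))
    (c : Fin n → ι → EE n → ℂ), (∀ k, (W k).length ≤ N) ∧ (∀ i k, AN (c i k)) ∧
    ∀ (G : 𝓢(EE (n + 1), ℂ)) (a : EE n) (s η : ℝ) (i : Fin n),
      (2 * Real.pi * Complex.I * (a i : ℂ)) ^ N * ca G a s η =
        ∑ k : ι, ∫ y : EE n, e (-(inner ℝ a y)) * c i k y *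
          rotW (W k) G (jo ((s / ‖y‖) • y) η) := by
  induction N with
  | zero =>
    refine ⟨Unit, inferInstance, fun _ => [], fun _ _ y => ((chis ‖y‖ : ℝ) : ℂ), fun _ => by simp,
      fun _ _ => AN_chis, fun G a s η i => ?_⟩
    simp [ca, rotW]
  | succ N ih =>
    obtain ⟨ι, hι, W, c, hW, hc, hf⟩ := ih
    refine ⟨ι ⊕ (ι × Fin n × Fin n), inferInstance,
      Sum.elim W (fun q => (q.2.1, q.2.2) :: W q.1),
      fun i => Sum.elim (fun k y => fderiv ℝ (c i k) y (EuclideanSpace.single i 1))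
        (fun q y => if q.2.2 = i then c i q.1 y * ((y q.2.1 / ‖y‖ ^ 2 : ℝ) : ℂ) else 0), ?_, ?_, ?_⟩
    · rintro (k | q)
      · simp only [Sum.elim_inl]; exact (hW k).trans (Nat.le_succ _)
      · simp only [Sum.elim_inr, List.length_cons]; exact Nat.succ_le_succ (hW q.1)
    · rintro i (k | q)
      · exact AN_deriv (hc i k) _
      · simp only [Sum.elim_inr]
        by_cases h : q.2.2 = i
        · simp only [if_pos h]
          refine AN_mul (hc i q.1) fun y hy => ?_
          have hn : ‖y‖ ^ 2 ≠ 0 := pow_ne_zero _ (norm_ne_zero_iff.2 hy)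
          have h1 : ContDiffAt ℝ ∞ (fun y : EE n => y q.2.1 / ‖y‖ ^ 2) y := by
            refine ContDiffAt.div ?_ ((contDiff_norm_sq ℝ).contDiffAt) hn
            exact (EuclideanSpace.proj (𝕜 := ℝ) q.2.1).contDiff.contDiffAt
          exact Complex.ofRealCLM.contDiff.contDiffAt.comp y h1
        · simp only [if_neg h]
          exact AN_zero
    · intro G a s η i
      rw [pow_succ, mul_comm _ (2 * Real.pi * Complex.I * (a i : ℂ)), mul_assoc, hf G a s η i,
        Finset.mul_sum, Fintype.sum_sum_type]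
      simp only [Sum.elim_inl, Sum.elim_inr]
      rw [Fintype.sum_prod_type, ← Finset.sum_add_distrib]
      refine Finset.sum_congr rfl fun k _ => ?_
      -- the function `h`
      set Gk : 𝓢(EE (n + 1), ℂ) := RW (W k) G with hGk
      have hGk' : rotW (W k) G = (Gk : EE (n + 1) → ℂ) := (RW_coe _ _).symm
      have hsm : ∀ y : EE n, y ≠ 0 → ContDiffAt ℝ ∞ (fun y : EE n =>
          (Gk : EE (n + 1) → ℂ) (jo ((s / ‖y‖) • y) η)) y := fun y hy =>
        (Gk.smooth ⊤).contDiffAt.comp y (contDiffAt_jo s η y hy)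
      have hh : AN (fun y => c i k y * (Gk : EE (n + 1) → ℂ) (jo ((s / ‖y‖) • y) η)) :=
        AN_mul (hc i k) hsm
      have h1 := AN_ibp hh a i
      have h2 : ∫ y : EE n, e (-(inner ℝ a y)) * c i k y * rotW (W k) G (jo ((s / ‖y‖) • y) η) =
          ∫ y : EE n, e (-(inner ℝ a y)) *
            (c i k y * (Gk : EE (n + 1) → ℂ) (jo ((s / ‖y‖) • y) η)) := by
        refine integral_congr_ae (Filter.Eventually.of_forall fun y => ?_)
        simp only [hGk', mul_assoc]
      rw [h2, h1]
      -- the derivative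
      have h3 : ∀ y : EE n, fderiv ℝ (fun y => c i k y *
          (Gk : EE (n + 1) → ℂ) (jo ((s / ‖y‖) • y) η)) y (EuclideanSpace.single i 1) =
          fderiv ℝ (c i k) y (EuclideanSpace.single i 1) *
            (Gk : EE (n + 1) → ℂ) (jo ((s / ‖y‖) • y) η) +
          ∑ j : Fin n, (c i k y * ((y j / ‖y‖ ^ 2 : ℝ) : ℂ)) *
            rot j i Gk (jo ((s / ‖y‖) • y) η) := by
        intro y
        by_cases hy : y = 0
        · have hz : ∀ W : EE n → ℂ, AN W → W y = 0 := by
            intro W hW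
            by_contra hne
            have := (hW.2 y hne).1
            rw [hy, norm_zero] at this
            norm_num at this
          have e1 : fderiv ℝ (fun y => c i k y *
              (Gk : EE (n + 1) → ℂ) (jo ((s / ‖y‖) • y) η)) y (EuclideanSpace.single i 1) = 0 :=
            hz _ (AN_deriv hh (EuclideanSpace.single i 1))
          have e2 : fderiv ℝ (c i k) y (EuclideanSpace.single i 1) = 0 :=
            hz _ (AN_deriv (hc i k) (EuclideanSpace.single i 1))
          have e3 := hz _ (hc i k)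
          rw [e1, e2, e3]
          simp
        · have d1 : DifferentiableAt ℝ (c i k) y := ((hc i k).1.differentiable (by simp)) y
          have d2 : DifferentiableAt ℝ (fun y : EE n =>
              (Gk : EE (n + 1) → ℂ) (jo ((s / ‖y‖) • y) η)) y :=
            (hsm y hy).differentiableAt (by simp)
          have d3 := (d1.hasFDerivAt.mul d2.hasFDerivAt).fderiv
          have d4 : fderiv ℝ (fun y => c i k y *
              (Gk : EE (n + 1) → ℂ) (jo ((s / ‖y‖) • y) η)) y =
              c i k y • fderiv ℝ (fun y : EE n =>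
                (Gk : EE (n + 1) → ℂ) (jo ((s / ‖y‖) • y) η)) y +
              (Gk : EE (n + 1) → ℂ) (jo ((s / ‖y‖) • y) η) • fderiv ℝ (c i k) y := d3
          rw [d4]
          simp only [add_apply, smul_apply, smul_eq_mul]
          rw [fderiv_HH Gk s η y hy i (Gk.differentiable), Finset.mul_sum, add_comm]
          congr 1
          · ring
          · refine Finset.sum_congr rfl fun j _ => ?_
            ring
      have h4 : ∫ y : EE n, e (-(inner ℝ a y)) * fderiv ℝ (fun y => c i k y *
          (Gk : EE (n + 1) → ℂ) (jo ((s / ‖y‖) • y) η)) y (EuclideanSpace.single i 1) =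
          ∫ y : EE n, (e (-(inner ℝ a y)) * (fderiv ℝ (c i k) y (EuclideanSpace.single i 1) *
            (Gk : EE (n + 1) → ℂ) (jo ((s / ‖y‖) • y) η)) +
          ∑ j : Fin n, e (-(inner ℝ a y)) * ((c i k y * ((y j / ‖y‖ ^ 2 : ℝ) : ℂ)) *
            rot j i Gk (jo ((s / ‖y‖) • y) η))) := by
        refine integral_congr_ae (Filter.Eventually.of_forall fun y => ?_)
        simp only [h3, mul_add, Finset.mul_sum]
      rw [h4]
      have hrot : ∀ j : Fin n, (rot j i Gk : EE (n + 1) → ℂ) = (RR j i Gk : EE (n + 1) → ℂ) :=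
        fun j => (RR_coe j i Gk).symm
      have hAj : ∀ j : Fin n, AN (fun y : EE n => (c i k y * ((y j / ‖y‖ ^ 2 : ℝ) : ℂ)) *
          rot j i Gk (jo ((s / ‖y‖) • y) η)) := by
        intro j
        rw [hrot]
        refine AN_mul (AN_mul (hc i k) fun y hy => ?_) fun y hy =>
          ((RR j i Gk).smooth ⊤).contDiffAt.comp y (contDiffAt_jo s η y hy)
        have hn : ‖y‖ ^ 2 ≠ 0 := pow_ne_zero _ (norm_ne_zero_iff.2 hy)
        have h1 : ContDiffAt ℝ ∞ (fun y : EE n => y j / ‖y‖ ^ 2) y := by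
          refine ContDiffAt.div ?_ ((contDiff_norm_sq ℝ).contDiffAt) hn
          exact (EuclideanSpace.proj (𝕜 := ℝ) j).contDiff.contDiffAt
        exact Complex.ofRealCLM.contDiff.contDiffAt.comp y h1
      rw [integral_add (AN_integrable_e (AN_mul (AN_deriv (hc i k) _) hsm) a)
        (integrable_finsetSum _ fun j _ => AN_integrable_e (hAj j) a),
        integral_finsetSum _ fun j _ => AN_integrable_e (hAj j) a]
      congr 1
      · refine integral_congr_ae (Filter.Eventually.of_forall fun y => ?_)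
        simp only [hGk', mul_assoc]
      · rw [Fintype.sum_prod_type]
        refine Finset.sum_congr rfl fun j _ => ?_
        rw [Finset.sum_eq_single i]
        · refine integral_congr_ae (Filter.Eventually.of_forall fun y => ?_)
          simp only [if_true]
          change _ = e (-(inner ℝ a y)) * (c i k y * ((y j / ‖y‖ ^ 2 : ℝ) : ℂ)) *
            rot j i (rotW (W k) G) (jo ((s / ‖y‖) • y) η)
          rw [hGk']
          ring
        · intro b _ hb
          simp [hb]
        · intro h; exact absurd (Finset.mem_univ _) h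

theorem ang : T_ANG := by
  classical
  intro n N _
  obtain ⟨ι, hι, W, c, hW, hc, hf⟩ := ang_aux n N
  refine ⟨Finset.univ.image W, fun i w y => ∑ k ∈ Finset.univ.filter (fun k => W k = w), c i k y,
    ?_, ?_, ?_⟩
  · intro w hw
    obtain ⟨k, _, rfl⟩ := Finset.mem_image.1 hw
    exact hW k
  · intro i w
    exact AN_sum _ fun k _ => hc i k
  · intro G a s η i
    rw [hf G a s η i]
    have h1 : ∀ w : List (Fin n × Fin n), ∫ y : EE n, e (-(inner ℝ a y)) *
        (∑ k ∈ Finset.univ.filter (fun k => W k = w), c i k y) *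
          rotW w G (jo ((s / ‖y‖) • y) η) =
        ∑ k ∈ Finset.univ.filter (fun k => W k = w), ∫ y : EE n, e (-(inner ℝ a y)) * c i k y *
          rotW (W k) G (jo ((s / ‖y‖) • y) η) := by
      intro w
      rw [← integral_finsetSum]
      · refine integral_congr_ae (Filter.Eventually.of_forall fun y => ?_)
        simp only [Finset.mul_sum, Finset.sum_mul]
        refine Finset.sum_congr rfl fun k hk => ?_
        rw [(Finset.mem_filter.1 hk).2]
      · intro k hk
        have : Integrable (fun y : EE n => e (-(inner ℝ a y)) * (c i k y *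
            (RW (W k) G : EE (n + 1) → ℂ) (jo ((s / ‖y‖) • y) η))) :=
          AN_integrable_e (AN_mul (hc i k) fun y hy =>
            ((RW (W k) G).smooth ⊤).contDiffAt.comp y (contDiffAt_jo s η y hy)) a
        rw [RW_coe] at this
        simpa only [mul_assoc] using this
    simp only [h1]
    exact (Finset.sum_fiberwise_of_maps_to (s := Finset.univ) (t := Finset.univ.image W)
      (g := W) (fun k _ => Finset.mem_image_of_mem _ (Finset.mem_univ k)) _).symm

end Pool.Agent.H85.LS
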