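import Pool.Agent.H85.LS.ANG

set_option autoImplicit false

namespace Pool.Agent.H85.LS

open MeasureTheory Set FourierTransform Pool.Agent.H83.LS LineDeriv
open scoped ENNReal NNReal SchwartzMap ContDiff

theorem norm_sq_split {n : ℕ} (ξ : EE (n + 1)) : ‖ξ‖ ^ 2 = ‖pr ξ‖ ^ 2 + (ξ (Fin.last n)) ^ 2 := by
  rw [EuclideanSpace.norm_sq_eq, EuclideanSpace.norm_sq_eq, Fin.sum_univ_castSucc]
  simp [pr]

theorem norm_pr {n : ℕ} (ξ : EE (n + 1)) : ‖pr ξ‖ = hor ξ := by
  unfold hor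
  rw [norm_sq_split, add_sub_cancel_right, Real.sqrt_sq (norm_nonneg _)]

theorem jo_pr {n : ℕ} (ξ : EE (n + 1)) : jo (pr ξ) (ξ (Fin.last n)) = ξ := by
  ext k
  refine Fin.lastCases ?_ (fun k => ?_) k
  · simp [jo]
  · simp [jo, pr]

theorem inva : T_INVA := by
  intro n _ G ξ hξ
  set s := hor ξ with hs
  set η := ξ (Fin.last n) with hη
  have hh : AN (fun y : EE n => ((chis ‖y‖ : ℝ) : ℂ) * G (jo ((s / ‖y‖) • y) η)) :=
    AN_mul AN_chis fun y hy => (G.smooth ⊤).contDiffAt.comp y (contDiffAt_jo s η y hy)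
  let H : 𝓢(EE n, ℂ) := (AN_hcs hh).toSchwartzMap hh.1
  have hH : (H : EE n → ℂ) = fun y : EE n => ((chis ‖y‖ : ℝ) : ℂ) * G (jo ((s / ‖y‖) • y) η) := rfl
  have hca : ∀ a, ca G a s η = (𝓕 H : 𝓢(EE n, ℂ)) a := by
    intro a
    rw [SchwartzMap.fourier_coe, fourier_eq_e, hH]
    unfold ca
    refine integral_congr_ae (Filter.Eventually.of_forall fun y => ?_)
    simp only [mul_assoc]
  have hca' : (fun a : EE n => ca G a s η) = (𝓕 H : 𝓢(EE n, ℂ)) := funext hca
  constructor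
  · rw [hca']
    exact (𝓕 H : 𝓢(EE n, ℂ)).integrable
  · have h1 : (𝓕⁻ (𝓕 H : 𝓢(EE n, ℂ)) : 𝓢(EE n, ℂ)) = H := FourierTransform.fourierInv_fourier_eq H
    have h2 := DFunLike.congr_fun h1 ((1 / s) • pr ξ)
    have hsp : 0 < s := lt_of_le_of_ne (by rw [hs, ← norm_pr]; exact norm_nonneg _) (Ne.symm hξ)
    have hnorm : ‖(1 / s) • pr ξ‖ = 1 := by
      rw [norm_smul, norm_pr, Real.norm_eq_abs, abs_of_pos (by positivity), ← hs]
      field_simp
    have h3 : H ((1 / s) • pr ξ) = G ξ := by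
      rw [hH]
      simp only [hnorm]
      rw [H27.chis_one (by norm_num) (by norm_num), Complex.ofReal_one, one_mul, smul_smul]
      have : s / 1 * (1 / s) = 1 := by field_simp
      rw [this, one_smul, hη, jo_pr]
    rw [h3] at h2
    rw [← h2, SchwartzMap.fourierInv_coe, Real.fourierInv_eq']
    refine integral_congr_ae (Filter.Eventually.of_forall fun a => ?_)
    simp only [smul_eq_mul]
    rw [hca]
    congr 1

end Pool.Agent.H85.LS
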