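import Pool.Agent.H83.LS.Targets2

set_option autoImplicit false

namespace Pool.Agent.H85.LS

open MeasureTheory Set Pool.Agent.H83.LS
open scoped ENNReal NNReal

theorem PS_mono {p κ R : ℝ} {w : ℝ → ℝ≥0∞} {S : Set (ℝ × ℝ)} {α : ℝ} {A B : ℝ≥0∞}
    (h : PS p κ R w S α A) (hAB : A ≤ B) : PS p κ R w S α B := by
  intro θ b h1 h2
  refine (h θ b h1 h2).trans ?_
  gcongr

theorem slw (hSTEP : T_STEP) (hSBASE : T_SBASE) : T_SLW := by
  intro p η A₀ hp hp3 hη
  obtain ⟨C₁, hC₁⟩ := hSTEP p hp hp3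
  -- the real constants
  set c1 : ℝ := max (C₁ : ℝ) 2 with hc1
  have hc1C : (C₁ : ℝ) ≤ c1 := le_max_left _ _
  have hc12 : 2 ≤ c1 := le_max_right _ _
  obtain ⟨K, hK⟩ := exists_nat_ge (max 4 (c1 ^ (4 / η)))
  have hK4r : (4 : ℝ) ≤ K := (le_max_left _ _).trans hK
  have hK4 : 4 ≤ K := by exact_mod_cast hK4r
  have hKc : c1 ^ (4 / η) ≤ K := (le_max_right _ _).trans hK
  have hc1K : c1 ≤ (K : ℝ) ^ (η / 4) := by
    have h1 : (c1 ^ (4 / η)) ^ (η / 4) = c1 := by
      rw [← Real.rpow_mul (by linarith), show 4 / η * (η / 4) = 1 by field_simp, Real.rpow_one]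
    rw [← h1]
    exact Real.rpow_le_rpow (Real.rpow_nonneg (by linarith) _) hKc (by positivity)
  obtain ⟨CK, hCK⟩ := hC₁ (η / 2) A₀ K (by positivity) hK4
  obtain ⟨CB, hCB⟩ := hSBASE p A₀ hp hp3
  refine ⟨Real.toNNReal (c1 * ((CB : ℝ) + (1 + 4 / (3 * η)) * CK)), ?_⟩
  intro κ ρ R w S hyp α hα hακ
  have hhyp := hyp
  obtain ⟨hκ0, hκ1, hρ0, hρ1, hR1, -, -, -⟩ := hhyp
  have hR0 : 0 < R := by linarith
  have hK0 : (0 : ℝ) < K := by linarith
  set Y : ℝ := R ^ (1 + η / 2) * ρ ^ (2 - p / 2) with hY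
  have hY0 : 0 ≤ Y := by positivity
  -- existence of the stopping time
  have hex : ∃ n : ℕ, (α / (K : ℝ) ^ n) ^ 2 * ρ * R ≤ 1 := by
    have h1 : Filter.Tendsto (fun n : ℕ => (α / (K : ℝ) ^ n) ^ 2 * ρ * R) Filter.atTop (nhds 0) := by
      have h2 : Filter.Tendsto (fun n : ℕ => α / (K : ℝ) ^ n) Filter.atTop (nhds 0) := by
        refine Filter.Tendsto.div_atTop tendsto_const_nhds ?_
        exact tendsto_pow_atTop_atTop_of_one_lt (by linarith)
      have h3 := ((h2.pow 2).mul_const ρ).mul_const R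
      simpa using h3
    exact (h1.eventually (ge_mem_nhds (by norm_num : (0 : ℝ) < 1))).exists
  classical
  let n := Nat.find hex
  have hn : (α / (K : ℝ) ^ n) ^ 2 * ρ * R ≤ 1 := Nat.find_spec hex
  have hlt : ∀ i < n, 1 < (α / (K : ℝ) ^ i) ^ 2 * ρ * R := fun i hi => by
    have := Nat.find_min hex hi
    exact not_le.1 this
  have hαi : ∀ i : ℕ, 0 < α / (K : ℝ) ^ i := fun i => by positivity
  have hαiκ : ∀ i : ℕ, α / (K : ℝ) ^ i ≤ κ := fun i => by
    refine (div_le_self hα.le ?_).trans hακ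
    exact one_le_pow₀ (by linarith)
  -- the recursion
  have hrec : ∀ j, j ≤ n → PS p κ R w S (α / (K : ℝ) ^ (n - j))
      (ENNReal.ofReal (c1 ^ j * ((CB : ℝ) + j * CK) * Y)) := by
    intro j
    induction j with
    | zero =>
      intro _
      have h1 := hCB κ ρ R w S hyp (α / (K : ℝ) ^ n) (hαi n) (hαiκ n) hn
      rw [Nat.sub_zero]
      refine PS_mono h1 ?_
      rw [← ENNReal.ofReal_coe_nnreal, ← ENNReal.ofReal_mul (by positivity)]
      apply ENNReal.ofReal_le_ofReal
      simp only [pow_zero, one_mul, Nat.cast_zero, zero_mul, add_zero]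
      refine mul_le_mul_of_nonneg_left ?_ (by positivity)
      rw [hY]
      refine mul_le_mul_of_nonneg_right ?_ (by positivity)
      calc R = R ^ (1 : ℝ) := (Real.rpow_one R).symm
        _ ≤ R ^ (1 + η / 2) := Real.rpow_le_rpow_of_exponent_le hR1 (by linarith)
    | succ j ih =>
      intro hj
      have h1 := ih (by omega)
      have h2 : α / (K : ℝ) ^ (n - j) = α / (K : ℝ) ^ (n - (j + 1)) / K := by
        rw [div_div, ← pow_succ]
        congr 2
        omega
      rw [h2] at h1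
      have h3 := hCK κ ρ R w S hyp (α / (K : ℝ) ^ (n - (j + 1))) _ (hαi _) (hαiκ _)
        (hlt _ (by omega)).le h1
      refine PS_mono h3 ?_
      rw [← ENNReal.ofReal_coe_nnreal, ← ENNReal.ofReal_coe_nnreal,
        ← ENNReal.ofReal_mul (by positivity), ← ENNReal.ofReal_mul (by positivity),
        ← ENNReal.ofReal_add (by positivity) (by positivity)]
      apply ENNReal.ofReal_le_ofReal
      have h4 : (1 : ℝ) ≤ c1 ^ (j + 1) := one_le_pow₀ (by linarith)
      have hE : 0 ≤ c1 ^ j * ((CB : ℝ) + j * CK) * Y := by positivity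
      calc (C₁ : ℝ) * (c1 ^ j * ((CB : ℝ) + j * CK) * Y) +
            CK * (R ^ (1 + η / 2) * ρ ^ (2 - p / 2))
          ≤ c1 * (c1 ^ j * ((CB : ℝ) + j * CK) * Y) + c1 ^ (j + 1) * (CK * Y) := by
            refine add_le_add (mul_le_mul_of_nonneg_right hc1C hE) ?_
            rw [← hY]
            exact le_mul_of_one_le_left (by positivity) h4
        _ = c1 ^ (j + 1) * ((CB : ℝ) + ((j + 1 : ℕ) : ℝ) * CK) * Y := by
            push_cast
            ring
  have hfin := hrec n le_rfl
  rw [Nat.sub_self, pow_zero, div_one] at hfin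
  refine PS_mono hfin ?_
  rw [← ENNReal.ofReal_coe_nnreal, ← ENNReal.ofReal_mul (by positivity)]
  apply ENNReal.ofReal_le_ofReal
  rw [Real.coe_toNNReal _ (by positivity)]
  -- the bound of `n`
  have hRR : (1 : ℝ) ≤ R ^ (3 * η / 8) := Real.one_le_rpow hR1 (by positivity)
  have hRR' : (1 : ℝ) ≤ R ^ (η / 8) := Real.one_le_rpow hR1 (by positivity)
  have hbn : c1 ^ n ≤ c1 * R ^ (η / 8) ∧ (n : ℝ) ≤ (1 + 4 / (3 * η)) * R ^ (3 * η / 8) := by
    rcases Nat.eq_zero_or_pos n with h0 | hpos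
    · rw [h0]
      constructor
      · rw [pow_zero]
        nlinarith
      · rw [Nat.cast_zero]
        positivity
    · obtain ⟨t, ht⟩ : ∃ t, n = t + 1 := ⟨n - 1, by omega⟩
      have h1 := hlt t (by omega)
      -- K^(2t) < R
      have h2 : (K : ℝ) ^ (2 * t) ≤ R := by
        have h3 : (α / (K : ℝ) ^ t) ^ 2 * ρ * R ≤ R / (K : ℝ) ^ (2 * t) := by
          rw [div_pow, ← pow_mul, mul_comm t 2]
          have h4 : α ^ 2 * ρ ≤ 1 := by
            have : α ^ 2 ≤ 1 := by
              have : α ≤ 1 := hακ.trans hκ1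
              nlinarith
            nlinarith
          rw [div_mul_eq_mul_div, div_mul_eq_mul_div]
          apply div_le_div_of_nonneg_right _ (by positivity)
          nlinarith
        have h5 : 1 ≤ R / (K : ℝ) ^ (2 * t) := h1.le.trans h3
        rwa [le_div_iff₀ (by positivity), one_mul] at h5
      constructor
      · rw [ht, pow_succ, mul_comm]
        refine mul_le_mul_of_nonneg_left ?_ (by linarith)
        calc c1 ^ t ≤ ((K : ℝ) ^ (η / 4)) ^ t := pow_le_pow_left₀ (by linarith) hc1K t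
          _ = ((K : ℝ) ^ (2 * t)) ^ (η / 8) := by
              rw [← Real.rpow_natCast, ← Real.rpow_mul hK0.le, ← Real.rpow_natCast,
                ← Real.rpow_mul hK0.le]
              congr 1
              push_cast
              ring
          _ ≤ R ^ (η / 8) := Real.rpow_le_rpow (by positivity) h2 (by positivity)
      · have h6 : (3 * η / 4) * t + 1 ≤ R ^ (3 * η / 8) := by
          calc (3 * η / 4) * t + 1 ≤ Real.exp ((3 * η / 4) * t) := Real.add_one_le_exp _
            _ ≤ ((K : ℝ) ^ (2 * t)) ^ (3 * η / 8) := by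
                rw [← Real.rpow_natCast, ← Real.rpow_mul hK0.le, Real.rpow_def_of_pos hK0]
                apply Real.exp_le_exp.2
                have h7 : (1 : ℝ) ≤ Real.log K := by
                  rw [Real.le_log_iff_exp_le hK0]
                  have := Real.exp_one_lt_d9
                  linarith
                push_cast
                have h8 : 0 ≤ 2 * (t : ℝ) * (3 * η / 8) := by positivity
                nlinarith
            _ ≤ R ^ (3 * η / 8) := Real.rpow_le_rpow (by positivity) h2 (by positivity)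
        rw [ht]
        push_cast
        have h9 : (t : ℝ) ≤ 4 / (3 * η) * R ^ (3 * η / 8) := by
          rw [div_mul_eq_mul_div, le_div_iff₀ (by positivity)]
          nlinarith
        nlinarith
  obtain ⟨hb1, hb2⟩ := hbn
  have hexp : R ^ (1 + η) = R ^ (η / 8) * R ^ (3 * η / 8) * R ^ (1 + η / 2) := by
    rw [← Real.rpow_add hR0, ← Real.rpow_add hR0]
    congr 1
    ring
  calc c1 ^ n * ((CB : ℝ) + n * CK) * Y
      ≤ (c1 * R ^ (η / 8)) * (((CB : ℝ) + (1 + 4 / (3 * η)) * CK) * R ^ (3 * η / 8)) * Y := by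
        refine mul_le_mul_of_nonneg_right (mul_le_mul hb1 ?_ (by positivity) (by positivity)) hY0
        have h1 : (CB : ℝ) ≤ CB * R ^ (3 * η / 8) := le_mul_of_one_le_right (by positivity) hRR
        have h2 : (n : ℝ) * CK ≤ ((1 + 4 / (3 * η)) * R ^ (3 * η / 8)) * CK :=
          mul_le_mul_of_nonneg_right hb2 (by positivity)
        linarith
    _ = c1 * ((CB : ℝ) + (1 + 4 / (3 * η)) * CK) * (R ^ (1 + η) * ρ ^ (2 - p / 2)) := by
        rw [hexp, hY]
        ring

end Pool.Agent.H85.LS
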